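import Mathlib
import Pool.Agent.Q280.Phi21

set_option autoImplicit false

namespace Pool.Agent.Results.MP_89b4a2_co.DenominatorsShiftAC

open PowerSeries Pool.Agent.Q280.Phi21

section general

variable {K : Type*} [Field K] {q a b c : K}

theorem L1 (hc : ∀ k : ℕ, 1 - c * q ^ k ≠ 0) (hq : ∀ k : ℕ, 1 - q * q ^ k ≠ 0) :
    rescale q (phi q a b c) = phi q a b c - X * (C ((1 - a) / (1 - c)) * phi q (a * q) b (c * q))
      + X * (C ((1 - a) / (1 - c) * b) * rescale q (phi q (a * q) b (c * q))) := by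
  have hc0 : 1 - c ≠ 0 := by simpa using hc 0
  ext n
  cases n with
  | zero => simp [phi]
  | succ n =>
    have h1 : qp q (c * q) n ≠ 0 := qp_ne (hc_shift hc) n
    have h2 : qp q q n ≠ 0 := hq_ne hq n
    have h3 := hq n
    rw [map_add, map_sub, coeff_succ_X_mul, coeff_succ_X_mul, coeff_C_mul, coeff_C_mul, coeff_rescale,
      coeff_rescale]
    simp only [phi, coeff_mk]
    rw [qp_succ' q a, qp_succ q b, qp_succ' q c, qp_succ q q, pow_succ]
    have h3' : 1 - q ^ n * q ≠ 0 := by rwa [mul_comm]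
    field_simp
    ring

theorem L2 (hc : ∀ k : ℕ, 1 - c * q ^ k ≠ 0) (hq : ∀ k : ℕ, 1 - q * q ^ k ≠ 0) :
    (C c - C (a * b) * X) * rescale q (phi q (a * q) b (c * q)) =
      (1 - C a * X) * phi q (a * q) b (c * q) - C (1 - c) * phi q a b c := by
  have hc0 : 1 - c ≠ 0 := by simpa using hc 0
  ext n
  cases n with
  | zero =>
    have h0 : constantCoeff (rescale q (phi q (a * q) b (c * q))) = 1 := by
      rw [← coeff_zero_eq_constantCoeff_apply, coeff_rescale, coeff_zero_eq_constantCoeff_apply, constCoeff_phi]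
      simp
    rw [coeff_zero_eq_constantCoeff_apply, coeff_zero_eq_constantCoeff_apply]
    simp only [map_mul, map_sub, h0, constCoeff_phi, map_one, constantCoeff_C, constantCoeff_X]
    ring
  | succ n =>
    have h1 : qp q (c * q) n ≠ 0 := qp_ne (hc_shift hc) n
    have h2 : qp q q n ≠ 0 := hq_ne hq n
    have h3 := hq n
    have h4 := hc_shift hc n
    rw [sub_mul, sub_mul, one_mul, map_sub, map_sub, map_sub, mul_assoc, mul_assoc, coeff_C_mul, coeff_C_mul,
      coeff_C_mul, coeff_C_mul, coeff_succ_X_mul, coeff_succ_X_mul, coeff_rescale, coeff_rescale]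
    simp only [phi, coeff_mk]
    rw [qp_succ' q a, qp_succ q b, qp_succ' q c, qp_succ q q, qp_succ q (a * q), qp_succ q (c * q), pow_succ']
    generalize q ^ n = x at h3 h4 ⊢
    field_simp
    ring

/-- the ratio -/
noncomputable def S (q a b c : K) : PowerSeries K := phi q (a * q) b (c * q) * (phi q a b c)⁻¹

theorem riccati (hc : ∀ k : ℕ, 1 - c * q ^ k ≠ 0) (hq : ∀ k : ℕ, 1 - q * q ^ k ≠ 0) :
    (1 - C a * X) * S q a b c - C (1 - c) = (C c - C b * X) * rescale q (S q a b c)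
      + C ((1 - a) / (1 - c) * (b - c)) * (X * (S q a b c * rescale q (S q a b c))) := by
  have hc0 : 1 - c ≠ 0 := by simpa using hc 0
  have l1 := L1 (a := a) (b := b) hc hq
  have l2 := L2 (a := a) (b := b) hc hq
  have hF := phi_mul_inv q a b c
  have hF' := congrArg (rescale q) hF
  rw [map_mul, map_one] at hF'
  unfold S
  rw [map_mul]
  obtain ⟨F, hFd⟩ : ∃ F, F = phi q a b c := ⟨_, rfl⟩
  rw [← hFd] at l1 l2 hF hF' ⊢
  obtain ⟨W, hWd⟩ : ∃ W, W = phi q (a * q) b (c * q) := ⟨_, rfl⟩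
  rw [← hWd] at l1 l2 ⊢
  obtain ⟨F', hF'd⟩ : ∃ F', F' = rescale q F := ⟨_, rfl⟩
  rw [← hF'd] at l1 hF'
  obtain ⟨W', hW'd⟩ : ∃ W', W' = rescale q W := ⟨_, rfl⟩
  rw [← hW'd] at l1 l2 ⊢
  obtain ⟨Fi, hFi⟩ : ∃ Fi, Fi = F⁻¹ := ⟨_, rfl⟩
  rw [← hFi] at hF hF' ⊢
  obtain ⟨Fi', hFi'⟩ : ∃ Fi', Fi' = rescale q Fi := ⟨_, rfl⟩
  rw [← hFi'] at hF' ⊢
  have hl : (1 - a) / (1 - c) * (1 - c) = 1 - a := div_mul_cancel₀ _ hc0
  have hl' : (C ((1 - a) / (1 - c)) : PowerSeries K) * (1 - C c) = 1 - C a := by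
    have := congrArg (C (R := K)) hl
    simpa only [map_mul, map_sub, map_one] using this
  rw [map_mul, map_sub, map_sub, map_one]
  rw [map_mul] at l1 l2
  rw [map_sub, map_one] at l2
  obtain ⟨L, hL⟩ : ∃ L, L = (C ((1 - a) / (1 - c)) : PowerSeries K) := ⟨_, rfl⟩
  rw [← hL] at l1 hl' ⊢
  -- key identity
  have key : (C c - C a * C b * X) * W' * (F - X * L * W) = (F' - X * L * C b * W') * ((1 - C a * X) * W - (1 - C c) * F) := by
    rw [← l2]
    rw [l1]
    ring
  linear_combination (-(Fi * Fi')) * key + ((C c - C a * C b * X) * W' * Fi' + (F' * Fi' - X * L * C b * W' * Fi') * (1 - C c)) * hF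
    - ((1 - C a * X) * W * Fi - (1 - C c)) * hF' - (X * C b * W' * Fi') * hl'

theorem coeff_rec (hc : ∀ k : ℕ, 1 - c * q ^ k ≠ 0) (hq : ∀ k : ℕ, 1 - q * q ^ k ≠ 0) (n : ℕ) :
    (1 - c * q ^ (n + 1)) * (coeff (n + 1) (S q a b c) / (1 - c)) =
      (a - b * q ^ n) * (coeff n (S q a b c) / (1 - c))
      + (1 - a) * (b - c) * ∑ p ∈ Finset.HasAntidiagonal.antidiagonal n,
          (q ^ p.2 * ((coeff p.1 (S q a b c) / (1 - c)) * (coeff p.2 (S q a b c) / (1 - c)))) := by
  have hc0 : 1 - c ≠ 0 := by simpa using hc 0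
  have h := riccati (a := a) (b := b) hc hq
  have hT : coeff (n + 1) (C (1 - c)) = 0 := by rw [coeff_C, if_neg (by omega : ¬ n + 1 = 0)]
  generalize C (1 - c) = T at h hT
  have h := congrArg (coeff (n + 1)) h
  rw [sub_mul, sub_mul, one_mul, map_sub, map_sub, map_add, map_sub, mul_assoc, mul_assoc, coeff_C_mul, coeff_C_mul,
      coeff_C_mul, coeff_C_mul, coeff_succ_X_mul, coeff_succ_X_mul, coeff_succ_X_mul, coeff_rescale, coeff_rescale,
      hT, coeff_mul] at h
  have e : ∑ p ∈ Finset.HasAntidiagonal.antidiagonal n,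
          (q ^ p.2 * ((coeff p.1 (S q a b c) / (1 - c)) * (coeff p.2 (S q a b c) / (1 - c))))
      = (∑ p ∈ Finset.HasAntidiagonal.antidiagonal n, coeff p.1 (S q a b c) * coeff p.2 (rescale q (S q a b c))) / (1 - c) ^ 2 := by
    rw [Finset.sum_div]
    apply Finset.sum_congr rfl
    intro p _
    rw [coeff_rescale]
    field_simp
  rw [e]
  field_simp
  field_simp at h
  linear_combination h

end general

/-- For every `n`, `D_n γ'_n / (1 - c)` is a polynomial in `a,b,c,q` with integer coefficients, where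
`∑ γ'_n z^n = ₂φ₁(aq,b;cq;q,z) / ₂φ₁(a,b;c;q,z)` and `D_n = ∏_{k≤n} (1 - c q^k)^{⌊(n+1)/(k+1)⌋}`. -/
theorem result (n : ℕ) : ∃ P : RR,
    (∏ k ∈ Finset.range (n + 1), (1 - vC * vQ ^ k) ^ ((n + 1) / (k + 1)))
      * coeff n (phi vQ (vA * vQ) vB (vC * vQ) * (phi vQ vA vB vC)⁻¹) / (1 - vC) = algebraMap RR KK P := by
  have main : ∀ n : ℕ, Itg (DD pik n) (coeff n (S vQ vA vB vC) / (1 - vC)) := by
    intro n
    induction n using Nat.strong_induction_on with
    | _ n ih =>
      cases n with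
      | zero =>
        refine ⟨1, ?_⟩
        have h0 : coeff 0 (S vQ vA vB vC) = 1 := by
          rw [coeff_zero_eq_constantCoeff_apply, S, map_mul, constCoeff_phi, constantCoeff_inv, constCoeff_phi]
          simp
        have hc0 : 1 - vC ≠ 0 := by simpa using vC_ne 0
        rw [h0, map_DD]
        simp [hc0]
      | succ n =>
        refine Itg.div ?_ (coeff_rec (a := vA) (b := vB) vC_ne vQ_ne n)
        apply Itg.add
        · have h := (ih n (by omega)).smul (MvPolynomial.X 0 - MvPolynomial.X 1 * MvPolynomial.X 3 ^ n)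
          simp only [map_sub, map_mul, map_pow] at h
          exact h.dvd (DD_dvd pik n (n + 1) (by omega))
        · have h : Itg (EE pik (n + 1)) (algebraMap RR KK ((1 - MvPolynomial.X 0) * (MvPolynomial.X 1 - MvPolynomial.X 2)) *
            ∑ p ∈ Finset.HasAntidiagonal.antidiagonal n,
              (algebraMap RR KK (MvPolynomial.X 3 ^ p.2) * ((coeff p.1 (S vQ vA vB vC) / (1 - vC)) * (coeff p.2 (S vQ vA vB vC) / (1 - vC))))) := by
            apply Itg.smul
            apply Itg.sum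
            intro p hp
            rw [Finset.HasAntidiagonal.mem_antidiagonal] at hp
            apply Itg.smul
            exact ((ih p.1 (by omega)).mul (ih p.2 (by omega))).dvd (DD_mul_dvd pik p.1 p.2 (n + 1) (by omega))
          simp only [map_sub, map_mul, map_pow, map_one] at h
          exact h
  obtain ⟨P, hP⟩ := main n
  refine ⟨P, ?_⟩
  rw [← hP, map_DD]
  unfold S
  ring

end Pool.Agent.Results.MP_89b4a2_co.DenominatorsShiftAC
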